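import Mathlib

set_option autoImplicit false

open scoped ENNReal

namespace Pool.Agent.Results.MP_1af0ac_pr.Comb

/-- Transition kernel of the walk with edge weights `ν`. -/
noncomputable def P {V : Type} (ν : V → V → ℝ) (x y : V) : ℝ := ν x y / ∑' z, ν x z

abbrev W : Type := ℤ × ℕ

noncomputable def c (n : ℕ) : ℝ := 1 / ((n + 1) * (n + 2))

lemma c_pos (n : ℕ) : 0 < c n := by unfold c; positivity

noncomputable def w (u v : W) : ℝ :=
  (if u.2 = 0 ∧ v = (u.1 + 1, 0) then 1 else 0) + (if v = (u.1, u.2 + 1) then c u.2 else 0)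

noncomputable def nu (u v : W) : ℝ := w u v + w v u

lemma w_nn (u v : W) : 0 ≤ w u v := by
  unfold w
  have := c_pos u.2
  positivity

lemma nu_nn (u v : W) : 0 ≤ nu u v := add_nonneg (w_nn _ _) (w_nn _ _)

def r (u v : W) : Prop := (u.2 = 0 ∧ v = (u.1 + 1, 0)) ∨ v = (u.1, u.2 + 1)

lemma w_pos {u v : W} : 0 < w u v ↔ r u v := by
  unfold w r
  have := c_pos u.2
  split_ifs with h1 h2 h2
  · exact iff_of_true (by linarith) (Or.inl h1)
  · exact iff_of_true (by linarith) (Or.inl h1)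
  · exact iff_of_true (by linarith) (Or.inr h2)
  · exact iff_of_false (by simp) (not_or.2 ⟨h1, h2⟩)

def Gr : SimpleGraph W where
  Adj u v := r u v ∨ r v u
  symm := ⟨fun _ _ h => h.symm⟩
  loopless := ⟨fun x h => by simp only [r, or_self, Prod.ext_iff] at h; omega⟩

lemma adj_iff {u v : W} : Gr.Adj u v ↔ r u v ∨ r v u := Iff.rfl

lemma adj_nu (u v : W) : Gr.Adj u v ↔ 0 < nu u v := by
  rw [adj_iff, ← w_pos, ← w_pos, nu]
  have h1 := w_nn u v
  have h2 := w_nn v u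
  constructor
  · rintro (h | h) <;> linarith
  · intro h
    by_contra hc
    push Not at hc
    linarith [hc.1, hc.2]

lemma has0 (g : W → ℝ) (x : ℤ) :
    HasSum (fun y => nu (x, 0) y * g y) (g (x + 1, 0) + c 0 * g (x, 1) + g (x - 1, 0)) := by
  have h := ((hasSum_ite_eq ((x + 1, 0) : W) (g (x + 1, 0))).add
    (hasSum_ite_eq ((x, 1) : W) (c 0 * g (x, 1)))).add (hasSum_ite_eq ((x - 1, 0) : W) (g (x - 1, 0)))
  refine h.congr_fun fun y => ?_
  obtain ⟨a, b⟩ := y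
  by_cases h1 : (a, b) = (x + 1, 0)
  · rw [h1]
    simp only [nu, w, Prod.mk.injEq]
    split_ifs <;> first | omega | ring1 | simp_all
  by_cases h2 : (a, b) = (x, 1)
  · rw [h2]
    simp only [nu, w, Prod.mk.injEq]
    split_ifs <;> first | omega | ring1 | simp_all
  by_cases h3 : (a, b) = (x - 1, 0)
  · rw [h3]
    simp only [nu, w, Prod.mk.injEq]
    split_ifs <;> first | omega | ring1 | simp_all
  simp only [nu, w, Prod.mk.injEq] at *
  split_ifs <;> first | omega | ring1 | tauto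

lemma has1 (g : W → ℝ) (x : ℤ) (n : ℕ) :
    HasSum (fun y => nu (x, n + 1) y * g y) (c (n + 1) * g (x, n + 2) + c n * g (x, n)) := by
  have h := (hasSum_ite_eq ((x, n + 2) : W) (c (n + 1) * g (x, n + 2))).add
    (hasSum_ite_eq ((x, n) : W) (c n * g (x, n)))
  refine h.congr_fun fun y => ?_
  obtain ⟨a, b⟩ := y
  by_cases h1 : (a, b) = (x, n + 2)
  · rw [h1]
    simp only [nu, w, Prod.mk.injEq]
    split_ifs <;> first | omega | ring1 | simp_all
  by_cases h2 : (a, b) = (x, n)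
  · rw [h2]
    simp only [nu, w, Prod.mk.injEq]
    split_ifs <;> first | omega | ring1 | simp_all
  simp only [nu, w, Prod.mk.injEq] at *
  split_ifs <;> first | omega | ring1 | tauto

noncomputable def tot : ℕ → ℝ
  | 0 => 2 + c 0
  | n + 1 => c (n + 1) + c n

lemma tot_pos (n : ℕ) : 0 < tot n := by
  cases n with
  | zero => exact add_pos two_pos (c_pos 0)
  | succ n => exact add_pos (c_pos _) (c_pos _)

lemma has_tot (u : W) : HasSum (nu u) (tot u.2) := by
  obtain ⟨x, n⟩ := u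
  cases n with
  | zero =>
    have := has0 (fun _ => 1) x
    simp only [mul_one] at this
    rw [show tot (x, 0).2 = 1 + c 0 + 1 by simp only [tot]; ring]
    exact this
  | succ n => simpa [tot] using has1 (fun _ => 1) x n

lemma P_eq (u v : W) : P nu u v = nu u v / tot u.2 := by rw [P, (has_tot u).tsum_eq]

noncomputable def R (n : ℕ) : ℝ := n * (n + 1) * (n + 2) / 3

noncomputable def f (i x : ℤ) : ℝ := if x = i then 1 else 0

noncomputable def hh (i : ℤ) (u : W) : ℝ :=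
  f i u.1 + (2 * f i u.1 - f i (u.1 + 1) - f i (u.1 - 1)) * R u.2

lemma harm (i : ℤ) (u : W) : hh i u = ∑' y, P nu u y * hh i y := by
  simp_rw [P_eq, div_mul_eq_mul_div]
  rw [tsum_div_const, eq_div_iff (tot_pos _).ne']
  obtain ⟨x, n⟩ := u
  cases n with
  | zero =>
    rw [(has0 _ x).tsum_eq]
    simp only [hh, R, tot, c]
    push_cast
    ring
  | succ n =>
    rw [(has1 _ x n).tsum_eq]
    simp only [hh, R, tot, c]
    push_cast
    field_simp
    ring

lemma li : LinearIndependent ℝ fun i : ℕ => hh i := by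
  classical
  rw [linearIndependent_iff']
  intro s g h i hi
  have := congrFun h ((i : ℤ), 0)
  simp only [Finset.sum_apply, Pi.smul_apply, hh, R, f, smul_eq_mul, Pi.zero_apply] at this
  simpa [hi] using this

lemma walk_len {u v : W} (p : Gr.Walk u v) :
    (v.1 - u.1).natAbs + ((v.2 : ℤ) - u.2).natAbs ≤ p.length := by
  induction p with
  | nil => simp
  | cons h p ih =>
    simp only [adj_iff, r, Prod.ext_iff] at h
    rw [SimpleGraph.Walk.length_cons]
    omega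

lemma down (x : ℤ) (n : ℕ) : Gr.Reachable (x, n) (x, 0) := by
  induction n with
  | zero => rfl
  | succ n ih =>
    exact (SimpleGraph.Adj.reachable (show Gr.Adj (x, n + 1) (x, n) by simp [adj_iff, r])).trans ih

lemma side (x : ℤ) : Gr.Reachable (x, 0) (0, 0) := by
  induction x using Int.induction_on with
  | zero => rfl
  | succ n ih =>
    exact (SimpleGraph.Adj.reachable
      (show Gr.Adj ((n : ℤ) + 1, 0) (n, 0) by simp [adj_iff, r])).trans ih
  | pred n ih =>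
    exact (SimpleGraph.Adj.reachable
      (show Gr.Adj (-(n : ℤ) - 1, 0) (-n, 0) by simp [adj_iff, r])).trans ih

lemma conn : Gr.Connected :=
  ⟨fun x y => ((down x.1 x.2).trans (side x.1)).trans ((down y.1 y.2).trans (side y.1)).symm⟩

lemma dist_ge (u v : W) : (v.1 - u.1).natAbs + ((v.2 : ℤ) - u.2).natAbs ≤ Gr.dist u v := by
  obtain ⟨p, hp⟩ := conn.exists_walk_length_eq_dist u v
  rw [← hp]; exact walk_len p

lemma ball (u : W) (n : ℕ) : {y | Gr.dist u y ≤ n}.encard ≤ ((2 * n + 1) ^ 2 : ℕ) := by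
  have h : {y | Gr.dist u y ≤ n}
      ⊆ ↑(Finset.Icc (u.1 - n) (u.1 + n) ×ˢ Finset.Icc (u.2 - n) (u.2 + n)) := by
    intro y hy
    have := (dist_ge u y).trans hy
    simp only [Finset.coe_product, Finset.coe_Icc, Set.mem_prod, Set.mem_Icc]
    omega
  refine (Set.encard_le_encard h).trans ?_
  rw [Set.encard_coe_eq_coe_finsetCard, Finset.card_product, Int.card_Icc, Nat.card_Icc, sq]
  exact_mod_cast Nat.mul_le_mul (by omega) (by omega)

lemma nb_fin (u : W) : (Gr.neighborSet u).Finite := by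
  refine (Set.finite_of_encard_le_coe (ball u 1)).subset fun y hy => ?_
  exact (SimpleGraph.dist_eq_one_iff_adj.2 hy).le

lemma growth (o : W) (i : ℤ) (u : W) :
    |hh i u| ≤ (1 + 4 * (1 + (o.2 : ℝ)) ^ 3) * (1 + (Gr.dist o u : ℝ)) ^ 3 := by
  have h1 : u.2 ≤ o.2 + Gr.dist o u := by have := dist_ge o u; omega
  have h2 : (u.2 : ℝ) ≤ o.2 + Gr.dist o u := by exact_mod_cast h1
  have a0 : (0:ℝ) ≤ o.2 := Nat.cast_nonneg _
  have d0 : (0:ℝ) ≤ Gr.dist o u := Nat.cast_nonneg _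
  have n0 : (0:ℝ) ≤ u.2 := Nat.cast_nonneg _
  have h3 : (1 + (u.2 : ℝ)) ^ 3 ≤ ((1 + (o.2 : ℝ)) * (1 + (Gr.dist o u : ℝ))) ^ 3 :=
    pow_le_pow_left₀ (by positivity) (by nlinarith [mul_nonneg a0 d0]) 3
  have h4 : R u.2 ≤ (1 + (u.2 : ℝ)) ^ 3 := by unfold R; nlinarith [mul_nonneg n0 n0]
  have h5 : 0 ≤ R u.2 := by unfold R; positivity
  have h6 : 1 ≤ (1 + (Gr.dist o u : ℝ)) ^ 3 := one_le_pow₀ (by linarith)
  have fb : ∀ x, 0 ≤ f i x ∧ f i x ≤ 1 := fun x => by unfold f; split_ifs <;> norm_num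
  have b1 := fb u.1
  have b2 := fb (u.1 + 1)
  have b3 := fb (u.1 - 1)
  rw [mul_pow] at h3
  rw [hh, abs_le]
  constructor <;> nlinarith

noncomputable def M (n : ℕ) : ℝ≥0∞ := ENNReal.ofReal (tot n)

lemma N_sum (u : W) : ∑' y, ENNReal.ofReal (nu u y) = M u.2 := by
  rw [← ENNReal.ofReal_tsum_of_nonneg (nu_nn u) (has_tot u).summable, (has_tot u).tsum_eq, M]

lemma Z_fin : ∑' n, M n ≠ ⊤ := by
  have hc : Summable c := by
    refine Summable.of_nonneg_of_le (fun n => (c_pos n).le) (fun n => ?_)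
      ((summable_nat_add_iff 1).2 (Real.summable_one_div_nat_pow.2 one_lt_two))
    unfold c
    push_cast
    exact one_div_le_one_div_of_le (by positivity) (by nlinarith [Nat.cast_nonneg (α := ℝ) n])
  have ht : Summable tot :=
    (summable_nat_add_iff 1).1 (((summable_nat_add_iff 1).2 hc).add hc)
  exact ht.tsum_ofReal_ne_top

lemma Z_ne : ∑' n, M n ≠ 0 := by
  refine (lt_of_lt_of_le ?_ (ENNReal.le_tsum 0)).ne'
  exact ENNReal.ofReal_pos.2 (tot_pos 0)

noncomputable def wt (u : W) : ℝ≥0∞ := if u.1 = 0 then M u.2 else 0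

lemma wt_sum (F : W → ℝ≥0∞) : ∑' x, wt x * F x = ∑' n, M n * F (0, n) := by
  rw [ENNReal.tsum_prod', tsum_eq_single 0 fun t ht => by simp [wt, ht]]
  simp [wt]

def tr (t : ℤ) : W ≃ W := (Equiv.addRight t).prodCongr (Equiv.refl ℕ)

lemma tr_nu (t : ℤ) (x y : W) : nu (tr t x) (tr t y) = nu x y := by
  obtain ⟨a, b⟩ := x
  obtain ⟨a', b'⟩ := y
  have e : ∀ p q : ℤ, p + t = q + t + 1 ↔ p = q + 1 := fun p q => by omega
  simp [nu, w, tr, e]

lemma stat (F : W → ℝ≥0∞)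
    (hF : ∀ φ : W ≃ W, (∀ x y, nu (φ x) (φ y) = nu x y) → ∀ x, F (φ x) = F x) :
    ∑' x, wt x * F x = ∑' x, wt x * ∑' y, ENNReal.ofReal (P nu x y) * F y := by
  rw [wt_sum, wt_sum]
  have e1 : ∀ n, M n * ∑' y, ENNReal.ofReal (P nu (0, n) y) * F y
      = ∑' k : ℕ, ∑' t : ℤ, ENNReal.ofReal (nu (0, k) (t, n)) * F (0, k) := by
    intro n
    rw [← ENNReal.tsum_mul_left, ENNReal.tsum_prod', ENNReal.tsum_comm]
    refine tsum_congr fun k => ?_
    rw [← (Equiv.neg ℤ).tsum_eq]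
    refine tsum_congr fun t => ?_
    have h1 : F (-t, k) = F (0, k) := by
      rw [← hF (tr t) (tr_nu t) (-t, k)]; simp [tr]
    have h2 : nu (0, n) (-t, k) = nu (0, k) (t, n) := by
      rw [← tr_nu t, nu, add_comm]; simp [tr, nu]
    rw [Equiv.neg_apply, ← mul_assoc, M, ← ENNReal.ofReal_mul (tot_pos n).le, P_eq,
      mul_div_cancel₀ _ (tot_pos n).ne', h1, h2]
  simp_rw [e1]
  rw [ENNReal.tsum_comm]
  refine tsum_congr fun k => ?_
  rw [← N_sum (0, k), ENNReal.tsum_prod', ENNReal.tsum_comm, ← ENNReal.tsum_mul_right]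
  exact tsum_congr fun n => ENNReal.tsum_mul_right.symm

theorem result : ∃ (V : Type) (_ : Countable V) (G : SimpleGraph V) (ν : V → V → ℝ)
    (p : V → ℝ≥0∞), G.Connected ∧ (∀ x, (G.neighborSet x).Finite) ∧
    (∀ x y, ν x y = ν y x) ∧ (∀ x y, 0 ≤ ν x y) ∧ (∀ x y, G.Adj x y ↔ 0 < ν x y) ∧
    ∑' x, p x = 1 ∧
    (∀ F : V → ℝ≥0∞, (∀ φ : V ≃ V, (∀ x y, ν (φ x) (φ y) = ν x y) → ∀ x, F (φ x) = F x) →
      ∑' x, p x * F x = ∑' x, p x * ∑' y, ENNReal.ofReal (P ν x y) * F y) ∧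
    (∀ (x : V) (n : ℕ), {y | G.dist x y ≤ n}.encard ≤ ((2 * n + 1) ^ 2 : ℕ)) ∧
    ∃ h : ℕ → V → ℝ, LinearIndependent ℝ h ∧ ∀ i, (∀ x, h i x = ∑' y, P ν x y * h i y) ∧
      ∀ o, ∃ C : ℝ, ∀ x, |h i x| ≤ C * (1 + (G.dist o x : ℝ)) ^ 3 := by
  refine ⟨W, inferInstance, Gr, nu, fun x => (∑' n, M n)⁻¹ * wt x, conn, nb_fin,
    fun x y => add_comm _ _, nu_nn, adj_nu, ?_, fun F hF => ?_, ball, fun i => hh i, li,
    fun i => ⟨harm i, fun o => ⟨_, growth o i⟩⟩⟩
  · have := wt_sum fun _ => 1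
    simp only [mul_one] at this
    rw [ENNReal.tsum_mul_left, this, ENNReal.inv_mul_cancel Z_ne Z_fin]
  · simp_rw [mul_assoc]
    rw [ENNReal.tsum_mul_left, ENNReal.tsum_mul_left, stat F hF]

end Pool.Agent.Results.MP_1af0ac_pr.Comb
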